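import Pool.Agent.W492.BB.Defs

/-!
# Chow groups of hypersurfaces and suspensions: definitions
-/

open CategoryTheory AlgebraicGeometry

universe u v

namespace Pool.Agent.W525.Ha

open Pool.Agent.H914 Pool.Agent.H914.VarClass Pool.Agent.H914.VarClass.Obj Pool.Agent.W492.BB

attribute [local instance] MvPolynomial.gradedAlgebra

variable {k : Type u} [Field k] {𝒱 : VarClass k}

/-- Base change in transversal squares: if the square of smooth varieties `X = E ×_W E'` is
cartesian (as a square of schemes) and has the expected dimension, then `b'^* b_* = s'_* s^*`. -/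
def TransversalBaseChange (C : TheoryData.{u, v, 0} 𝒱 ℚ) : Prop :=
  ∀ {X E E' W : 𝒱.Obj} (s : X ⟶ E) (s' : X ⟶ E') (b : E ⟶ W) (b' : E' ⟶ W),
    IsPullback (SmVar.Hom.hom s) (SmVar.Hom.hom s') (SmVar.Hom.hom b) (SmVar.Hom.hom b') →
    X.dim + W.dim = E.dim + E'.dim →
    ∀ a : C.A E, C.up b' (C.down b a) = C.down s' (C.up s a)

/-- The projective spaces `P N` over `k`, and their hyperplane classes `H N`. -/
structure ProjSpaces (C : TheoryData.{u, v, 0} 𝒱 ℚ) where
  /-- the projective space of dimension `N` -/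
  P : ℕ → 𝒱.Obj
  /-- it is `Proj k[x_0, ..., x_N]` -/
  iso : ∀ N, (P N).V.X ≅ Proj (MvPolynomial.homogeneousSubmodule (Fin (N + 1)) k)
  /-- the isomorphism is over `k` -/
  iso_str : ∀ N, (iso N).hom ≫ Proj.toSpecZero _ ≫ Spec.map (CommRingCat.ofHom
    (algebraMap k (MvPolynomial.homogeneousSubmodule (Fin (N + 1)) k 0))) = (P N).V.str
  /-- the class of a hyperplane -/
  H : ∀ N, C.A (P N)

variable {C : TheoryData.{u, v, 0} 𝒱 ℚ}

/-- `ι` embeds the smooth variety `X` of dimension `n` into the projective space of dimension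
`n + 1` as the hypersurface `f = 0`, where `f` is an irreducible form of degree `d`. -/
structure IsHypersurface (S : ProjSpaces C) (d n : ℕ) (f : MvPolynomial (Fin (n + 2)) k)
    (X : 𝒱.Obj) (ι : X ⟶ S.P (n + 1)) : Prop where
  homog : f.IsHomogeneous d
  irreducible : Irreducible f
  dim_eq : X.dim = n
  closed : IsClosedImmersion (SmVar.Hom.hom ι)
  range_eq : Set.range (SmVar.Hom.hom ι ≫ (S.iso (n + 1)).hom) =
    ProjectiveSpectrum.zeroLocus (MvPolynomial.homogeneousSubmodule (Fin (n + 2)) k) {f}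

/-- The restriction of the hyperplane class to a subvariety of a projective space. -/
abbrev hyp (S : ProjSpaces C) {X : 𝒱.Obj} {N : ℕ} (ι : X ⟶ S.P N) : C.A X := C.up ι (S.H N)

/-- The form `f + y_1 ^ d + y_2 ^ d` in two more variables. -/
noncomputable def susp (d : ℕ) {n : ℕ} (f : MvPolynomial (Fin (n + 2)) k) :
    MvPolynomial (Fin (n + 2 + 2)) k :=
  MvPolynomial.rename (Fin.castAdd 2) f + MvPolynomial.X (Fin.natAdd (n + 2) 0) ^ d +
    MvPolynomial.X (Fin.natAdd (n + 2) 1) ^ d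

/-- `X` (with hyperplane class `h`) is the transversal intersection in `W` (with hyperplane class
`h'`, of dimension `dim X + 2`) of two cones over `X` which are hyperplane sections of `W`. The
cones enter through their resolutions `b : E → W` and `b' : E' → W`, where `π : E → X` and
`π' : E' → X` are the projections and `s`, `s'` are the sections given by `X`. -/
structure IsConeSystem (C : TheoryData.{u, v, 0} 𝒱 ℚ) (X W : 𝒱.Obj) (h : C.A X) (h' : C.A W)
    (E E' : 𝒱.Obj) (π : E ⟶ X) (s : X ⟶ E) (b : E ⟶ W) (π' : E' ⟶ X) (s' : X ⟶ E')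
    (b' : E' ⟶ W) : Prop where
  sec : s ≫ π = 𝟙 X
  sec' : s' ≫ π' = 𝟙 X
  isPullback : IsPullback (SmVar.Hom.hom s) (SmVar.Hom.hom s') (SmVar.Hom.hom b)
    (SmVar.Hom.hom b')
  dimE : E.dim = X.dim + 1
  dimE' : E'.dim = X.dim + 1
  dimW : W.dim = X.dim + 2
  down_one : C.down b 1 = h'
  restrict : C.up (s ≫ b) h' = h

/-- The geometry of suspensions: for a smooth hypersurface `X : f = 0` of degree `d ≥ 2` and
dimension `n ≥ 1`, the hypersurface `W : f + y_1 ^ d + y_2 ^ d = 0` is smooth, and the two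
hyperplane sections `y_1 = ζ y_2` and `y_1 = ζ' y_2` of `W`, where `ζ ≠ ζ'` are `d`-th roots of
`-1`, are cones over `X` which intersect transversally in `X`. -/
def HasCones (S : ProjSpaces C) : Prop :=
  ∀ (d n : ℕ) (f : MvPolynomial (Fin (n + 2)) k) (X : 𝒱.Obj) (ι : X ⟶ S.P (n + 1)),
    2 ≤ d → 1 ≤ n → IsHypersurface S d n f X ι →
    ∃ (W : 𝒱.Obj) (κ : W ⟶ S.P (n + 2 + 1)), IsHypersurface S d (n + 2) (susp d f) W κ ∧
      ∃ (E E' : 𝒱.Obj) (π : E ⟶ X) (s : X ⟶ E) (b : E ⟶ W) (π' : E' ⟶ X) (s' : X ⟶ E')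
        (b' : E' ⟶ W), IsConeSystem C X W (hyp S ι) (hyp S κ) E E' π s b π' s' b'

/-- `A^i(X) = ℚ h^i` for all smooth hypersurfaces `X` of degree `d` and dimension `n`. -/
def Hartshorne (S : ProjSpaces C) (d n i : ℕ) : Prop :=
  ∀ (f : MvPolynomial (Fin (n + 2)) k) (X : 𝒱.Obj) (ι : X ⟶ S.P (n + 1)),
    IsHypersurface S d n f X ι → ∀ a : C.A X, C.Deg i a → ∃ q : ℚ, a = q • hyp S ι ^ i

/-- The form `f + y ^ d` in one more variable. -/
noncomputable def cyc (d : ℕ) {n : ℕ} (f : MvPolynomial (Fin (n + 2)) k) :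
    MvPolynomial (Fin (n + 1 + 2)) k :=
  MvPolynomial.rename Fin.castSucc f + MvPolynomial.X (Fin.last (n + 2)) ^ d

/-- `s` embeds `X` (with hyperplane class `h`) into `Y` (with hyperplane class `h'`) as a smooth
hyperplane section. -/
structure IsSection (C : TheoryData.{u, v, 0} 𝒱 ℚ) {X Y : 𝒱.Obj} (h : C.A X) (h' : C.A Y)
    (s : X ⟶ Y) : Prop where
  closed : IsClosedImmersion (SmVar.Hom.hom s)
  dimY : Y.dim = X.dim + 1
  down_one : C.down s 1 = h'
  restrict : C.up s h' = h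

/-- The finite group of the automorphisms `g j` of `Y` fixes all points of `X ⊆ Y`, and
`q : Y → P` is the quotient, so that `q^* q_* = ∑ j, (g j)^*`. -/
structure IsGaloisCover (C : TheoryData.{u, v, 0} 𝒱 ℚ) {X Y P : 𝒱.Obj} (s : X ⟶ Y) (q : Y ⟶ P)
    {d : ℕ} (g : Fin d → (Y ⟶ Y)) : Prop where
  isIso : ∀ j, IsIso (SmVar.Hom.hom (g j))
  fix : ∀ j, s ≫ g j = s
  dim_eq : P.dim = Y.dim
  quot : ∀ c : C.A Y, C.up q (C.down q c) = ∑ j, C.up (g j) c

/-- The geometry of cyclic covers: for a smooth hypersurface `X : f = 0` of degree `d` and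
dimension `n ≥ 1`, the hypersurface `Y : f + y ^ d = 0` is smooth and contains `X` as its
hyperplane section `y = 0`, and the projection to the projective space of dimension `n + 1` is the
quotient by the group `μ_d`, which fixes the points of `X`. -/
def HasCyclicCovers (S : ProjSpaces C) : Prop :=
  ∀ (d n : ℕ) (f : MvPolynomial (Fin (n + 2)) k) (X : 𝒱.Obj) (ι : X ⟶ S.P (n + 1)),
    1 ≤ n → IsHypersurface S d n f X ι →
    ∃ (Y : 𝒱.Obj) (κ : Y ⟶ S.P (n + 1 + 1)), IsHypersurface S d (n + 1) (cyc d f) Y κ ∧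
      ∃ (s : X ⟶ Y) (q : Y ⟶ S.P (n + 1)) (g : Fin d → (Y ⟶ Y)),
        IsSection C (hyp S ι) (hyp S κ) s ∧ IsGaloisCover C s q g ∧
        C.up q (S.H (n + 1)) = hyp S κ

/-- Known facts on the Chow groups of the projective spaces and of hypersurfaces:
`A^i(P^N)` is spanned by `H^i`, and the degree of a hypersurface is not zero. -/
structure IsStandard (S : ProjSpaces C) : Prop where
  deg_hyp : ∀ N, C.Deg 1 (S.H N)
  projSpace : ∀ (N i : ℕ) (a : C.A (S.P N)), C.Deg i a → ∃ q : ℚ, a = q • S.H N ^ i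
  hypersurface : ∀ (d n : ℕ) (f : MvPolynomial (Fin (n + 2)) k) (X : 𝒱.Obj)
    (ι : X ⟶ S.P (n + 1)), IsHypersurface S d n f X ι → hyp S ι ^ n ≠ 0

/-- For every smooth hypersurface `Y` of degree `d` and dimension `n + 1` and every smooth
hyperplane section `X` of `Y`, the restriction `A^i(Y) → A^i(X)` is surjective. -/
def Surjectivity (S : ProjSpaces C) (d n i : ℕ) : Prop :=
  ∀ (f : MvPolynomial (Fin (n + 2)) k) (X : 𝒱.Obj) (ι : X ⟶ S.P (n + 1))
    (F : MvPolynomial (Fin (n + 1 + 2)) k) (Y : 𝒱.Obj) (κ : Y ⟶ S.P (n + 1 + 1)) (s : X ⟶ Y),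
    IsHypersurface S d n f X ι → IsHypersurface S d (n + 1) F Y κ →
    IsSection C (hyp S ι) (hyp S κ) s →
    ∀ a : C.A X, C.Deg i a → ∃ c : C.A Y, C.Deg i c ∧ C.up s c = a

/-- For every smooth hypersurface `Y` of degree `d` and dimension `n + 1` and every smooth
hyperplane section `X` of `Y`, the push-forward `A^i(X) → A^(i+1)(Y)` is injective. -/
def Injectivity (S : ProjSpaces C) (d n i : ℕ) : Prop :=
  ∀ (f : MvPolynomial (Fin (n + 2)) k) (X : 𝒱.Obj) (ι : X ⟶ S.P (n + 1))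
    (F : MvPolynomial (Fin (n + 1 + 2)) k) (Y : 𝒱.Obj) (κ : Y ⟶ S.P (n + 1 + 1)) (s : X ⟶ Y),
    IsHypersurface S d n f X ι → IsHypersurface S d (n + 1) F Y κ →
    IsSection C (hyp S ι) (hyp S κ) s →
    ∀ a : C.A X, C.Deg i a → C.down s a = 0 → a = 0

end Pool.Agent.W525.Ha
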