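import Pool.Agent.W525.Ha.Defs

/-!
# Chow groups of hypersurfaces and suspensions
-/

open CategoryTheory AlgebraicGeometry

universe u v

namespace Pool.Agent.W525.Ha

open Pool.Agent.H914 Pool.Agent.H914.VarClass Pool.Agent.H914.VarClass.Obj Pool.Agent.W492.BB

attribute [local instance] MvPolynomial.gradedAlgebra

variable {k : Type u} [Field k] {𝒱 : VarClass k} {C : TheoryData.{u, v, 0} 𝒱 ℚ}

/-- `π'_* b'^* b_* = s^*` for the resolutions of the two cones. -/
lemma down_up_down [hC : IsChow C] (hB : TransversalBaseChange C) {X W : 𝒱.Obj} {h : C.A X}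
    {h' : C.A W} {E E' : 𝒱.Obj} {π : E ⟶ X} {s : X ⟶ E} {b : E ⟶ W} {π' : E' ⟶ X} {s' : X ⟶ E'}
    {b' : E' ⟶ W} (S : IsConeSystem C X W h h' E E' π s b π' s' b') (a : C.A E) :
    C.down π' (C.up b' (C.down b a)) = C.up s a := by
  rw [hB s s' b b' S.isPullback (by rw [S.dimE, S.dimE', S.dimW]; ring) a,
    ← hC.isTheory.isFunctor.push_comp s' π', S.sec', hC.isTheory.isFunctor.push_id]

/-- The cone construction `A^i(X) → A^(i+1)(W)` is injective, with an explicit retraction which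
maps `h'^(i+1)` to `h^i`. -/
theorem retraction [hC : IsChow C] (hB : TransversalBaseChange C) {X W : 𝒱.Obj} {h : C.A X}
    {h' : C.A W} {E E' : 𝒱.Obj} {π : E ⟶ X} {s : X ⟶ E} {b : E ⟶ W} {π' : E' ⟶ X} {s' : X ⟶ E'}
    {b' : E' ⟶ W} (S : IsConeSystem C X W h h' E E' π s b π' s' b') :
    (∀ (i : ℤ) (a : C.A X), C.Deg i a → C.Deg (i + 1) (C.down b (C.up π a))) ∧
    (∀ (i : ℤ) (c : C.A W), C.Deg (i + 1) c → C.Deg i (C.down π' (C.up b' c))) ∧
    (∀ a : C.A X, C.down π' (C.up b' (C.down b (C.up π a))) = a) ∧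
    (∀ i : ℕ, C.down π' (C.up b' (h' ^ (i + 1))) = h ^ i) := by
  have hdeg := hC.isTheory.hasDegrees
  refine ⟨fun i a ha => ?_, fun i c hc => ?_, fun a => ?_, fun i => ?_⟩
  · have h1 := hdeg.push_mem b (hdeg.pull_mem π ha)
    rw [S.dimE, S.dimW] at h1
    have e : i + 1 * (((X.dim + 2 : ℕ) : ℤ) - ((X.dim + 1 : ℕ) : ℤ)) = i + 1 := by
      push_cast; ring
    rwa [e] at h1
  · have h1 := hdeg.push_mem π' (hdeg.pull_mem b' hc)
    rw [S.dimE'] at h1
    have e : i + 1 + 1 * ((X.dim : ℤ) - ((X.dim + 1 : ℕ) : ℤ)) = i := by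
      push_cast; ring
    rwa [e] at h1
  · rw [down_up_down hB S, ← hC.isTheory.isFunctor.pull_comp, S.sec,
      hC.isTheory.isFunctor.pull_id]
  · have h1 : h' ^ (i + 1) = C.down b (C.up b (h' ^ i)) := by
      have h2 := hC.isTheory.hasProjectionFormula.proj_right b 1 (h' ^ i)
      rw [TheoryData.mul, one_mul, S.down_one, TheoryData.mul] at h2
      rw [h2, pow_succ']
    rw [h1, down_up_down hB S, ← hC.isTheory.isFunctor.pull_comp, ← S.restrict]
    exact map_pow (C.pull (s ≫ b)) h' i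

/-- One step: from `(n + 2, i + 1)` to `(n, i)`. -/
theorem step [hC : IsChow C] (hB : TransversalBaseChange C) {S : ProjSpaces C}
    (hS : HasCones S) {d n i : ℕ} (hd : 2 ≤ d) (hn : 1 ≤ n)
    (h : Hartshorne S d (n + 2) (i + 1)) : Hartshorne S d n i := by
  intro f X ι hX a ha
  obtain ⟨W, κ, hW, E, E', π, s, b, π', s', b', T⟩ := hS d n f X ι hd hn hX
  obtain ⟨h1, -, h3, h4⟩ := retraction hB T
  obtain ⟨q, hq⟩ := h (susp d f) W κ hW (C.down b (C.up π a)) (by
    have := h1 i a ha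
    simpa using this)
  refine ⟨q, ?_⟩
  rw [← h3 a, hq, ← h4 i]
  change C.push π' (C.pull b' (q • _)) = q • C.push π' (C.pull b' _)
  rw [map_smul, map_smul]

theorem steps [hC : IsChow C] (hB : TransversalBaseChange C) {S : ProjSpaces C}
    (hS : HasCones S) {d n i : ℕ} (hd : 2 ≤ d) (hn : 1 ≤ n) (m : ℕ)
    (h : Hartshorne S d (n + 2 * m) (i + m)) : Hartshorne S d n i := by
  induction m with
  | zero => simpa using h
  | succ m ih =>
    refine ih (step hB hS hd (by omega) ?_)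
    have e1 : n + 2 * m + 2 = n + 2 * (m + 1) := by ring
    have e2 : i + m + 1 = i + (m + 1) := by ring
    rw [e1, e2]
    exact h

/-- `g^* s_* = s_*` for an automorphism `g` which fixes the points of `X`. -/
lemma up_down_fix [hC : IsChow C] (hB : TransversalBaseChange C) {X Y : 𝒱.Obj} {s : X ⟶ Y}
    {g : Y ⟶ Y} [IsIso (SmVar.Hom.hom g)] (hg : s ≫ g = s) (a : C.A X) :
    C.up g (C.down s a) = C.down s a := by
  have h1 : SmVar.Hom.hom s ≫ SmVar.Hom.hom g = SmVar.Hom.hom s := congrArg SmVar.Hom.hom hg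
  have hp : IsPullback (SmVar.Hom.hom (𝟙 X)) (SmVar.Hom.hom s) (SmVar.Hom.hom s)
      (SmVar.Hom.hom g) := by
    have e : SmVar.Hom.hom (𝟙 X : X ⟶ X) = 𝟙 X.V.X := rfl
    rw [e]
    exact IsPullback.of_horiz_isIso_mono ⟨by rw [h1, Category.id_comp]⟩
  rw [hB (𝟙 X) s s g hp rfl a, hC.isTheory.isFunctor.pull_id]

lemma deg_pow [hC : IsChow C] {X : 𝒱.Obj} {h : C.A X} (hh : C.Deg 1 h) (i : ℕ) :
    C.Deg i (h ^ i) := by
  induction i with
  | zero => simpa using hC.isTheory.isGradedRing.one_mem X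
  | succ i ih =>
    rw [pow_succ]
    have := hC.isTheory.isGradedRing.mul_mem ih hh
    simpa using this

/-- The restriction of `A^i(Y)` to `X` and the push-forward of `A^i(X)` to `Y` are spanned by
powers of the hyperplane class. -/
theorem cover [hC : IsChow C] (hB : TransversalBaseChange C) {S : ProjSpaces C}
    (hS : IsStandard S) {d n : ℕ} {X Y : 𝒱.Obj} {s : X ⟶ Y} {q : Y ⟶ S.P (n + 1)}
    {g : Fin d → (Y ⟶ Y)} (hd : d ≠ 0) {h : C.A X} {h' : C.A Y} (hs : IsSection C h h' s)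
    (hG : IsGaloisCover C s q g) (hq : C.up q (S.H (n + 1)) = h') (i : ℕ) :
    (∀ c : C.A Y, C.Deg i c → ∃ r : ℚ, C.up s c = r • h ^ i) ∧
    (∀ a : C.A X, C.Deg i a → ∃ r : ℚ, C.down s a = r • h' ^ (i + 1)) := by
  have hd' : (d : ℚ) ≠ 0 := by exact_mod_cast hd
  have hdeg := hC.isTheory.hasDegrees
  constructor
  · intro c hc
    have h1 : C.Deg i (C.down q c) := by
      have := hdeg.push_mem q hc
      rw [hG.dim_eq] at this
      simpa using this
    obtain ⟨r, hr⟩ := hS.projSpace _ _ _ h1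
    have h2 : C.up s (C.up q (C.down q c)) = (d : ℚ) • C.up s c := by
      rw [hG.quot]
      have h3 : C.up s (∑ j, C.up (g j) c) = ∑ j : Fin d, C.up s c := by
        rw [show C.up s (∑ j, C.up (g j) c) = ∑ j, C.up s (C.up (g j) c) from
          map_sum (C.pull s) _ _]
        refine Finset.sum_congr rfl fun j _ => ?_
        rw [← hC.isTheory.isFunctor.pull_comp, hG.fix]
      rw [h3, Finset.sum_const, Finset.card_univ, Fintype.card_fin, ← Nat.cast_smul_eq_nsmul ℚ]
    have h4 : C.up s (C.up q (C.down q c)) = r • h ^ i := by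
      rw [hr]
      change C.pull s (C.pull q (r • _)) = _
      rw [map_smul, map_smul, map_pow, map_pow]
      have h5 : C.pull q (S.H (n + 1)) = h' := hq
      have h6 : C.pull s h' = h := hs.restrict
      rw [h5, h6]
    refine ⟨(d : ℚ)⁻¹ * r, ?_⟩
    rw [mul_smul, ← h4, h2, smul_smul, inv_mul_cancel₀ hd', one_smul]
  · intro a ha
    have h1 : C.Deg ((i + 1 : ℕ) : ℤ) (C.down s a) := by
      have := hdeg.push_mem s ha
      rw [hs.dimY] at this
      have e : (i : ℤ) + 1 * (((X.dim + 1 : ℕ) : ℤ) - (X.dim : ℤ)) = ((i + 1 : ℕ) : ℤ) := by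
        push_cast; ring
      rwa [e] at this
    have h2 : C.Deg ((i + 1 : ℕ) : ℤ) (C.down q (C.down s a)) := by
      have := hdeg.push_mem q h1
      rw [hG.dim_eq] at this
      simpa using this
    obtain ⟨r, hr⟩ := hS.projSpace _ _ _ h2
    have h3 : C.up q (C.down q (C.down s a)) = (d : ℚ) • C.down s a := by
      rw [hG.quot]
      have h4 : ∑ j, C.up (g j) (C.down s a) = ∑ j : Fin d, C.down s a := by
        refine Finset.sum_congr rfl fun j _ => ?_
        have := hG.isIso j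
        exact up_down_fix hB (hG.fix j) a
      rw [h4, Finset.sum_const, Finset.card_univ, Fintype.card_fin, ← Nat.cast_smul_eq_nsmul ℚ]
    have h4 : C.up q (C.down q (C.down s a)) = r • h' ^ (i + 1) := by
      rw [hr]
      change C.pull q (r • _) = _
      rw [map_smul, map_pow]
      have h5 : C.pull q (S.H (n + 1)) = h' := hq
      rw [h5]
    refine ⟨(d : ℚ)⁻¹ * r, ?_⟩
    rw [mul_smul, ← h4, h3, smul_smul, inv_mul_cancel₀ hd', one_smul]

lemma down_pow [hC : IsChow C] {X Y : 𝒱.Obj} {h : C.A X} {h' : C.A Y} {s : X ⟶ Y}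
    (hs : IsSection C h h' s) (i : ℕ) : C.down s (h ^ i) = h' ^ (i + 1) := by
  have h1 := hC.isTheory.hasProjectionFormula.proj_right s 1 (h' ^ i)
  rw [TheoryData.mul, one_mul, hs.down_one, TheoryData.mul] at h1
  have h2 : C.up s (h' ^ i) = h ^ i := by
    have : C.pull s h' = h := hs.restrict
    change C.pull s (h' ^ i) = _
    rw [map_pow, this]
  rw [h2] at h1
  rw [h1, pow_succ']

/-- Hartshorne's conjecture in codimension `i` for hypersurfaces of dimension `n` and degree `d`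
is equivalent to the surjectivity, and to the injectivity, in the Lefschetz theorem for Chow
groups. -/
theorem lefschetz [hC : IsChow C] (hB : TransversalBaseChange C) {S : ProjSpaces C}
    (hS : IsStandard S) (hcyc : HasCyclicCovers S) {d n i : ℕ} (hd : 1 ≤ d) (hn : 1 ≤ n)
    (hi : i ≤ n) : [Hartshorne S d n i, Surjectivity S d n i, Injectivity S d n i].TFAE := by
  have hdeg := hC.isTheory.hasDegrees
  tfae_have 1 → 2 := by
    intro H f X ι F Y κ s hX hY hs a ha
    obtain ⟨q, hq⟩ := H f X ι hX a ha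
    refine ⟨q • hyp S κ ^ i, Submodule.smul_mem _ _ (deg_pow (hdeg.pull_mem κ (hS.deg_hyp _)) i),
      ?_⟩
    change C.pull s (q • _) = _
    have : C.pull s (hyp S κ) = hyp S ι := hs.restrict
    rw [map_smul, map_pow, this, hq]
  tfae_have 2 → 1 := by
    intro H f X ι hX a ha
    obtain ⟨Y, κ, hY, s, q, g, hs, hG, hq⟩ := hcyc d n f X ι hn hX
    obtain ⟨c, hc, rfl⟩ := H f X ι (cyc d f) Y κ s hX hY hs a ha
    exact (cover hB hS (by omega) hs hG hq i).1 c hc
  tfae_have 1 → 3 := by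
    intro H f X ι F Y κ s hX hY hs a ha h0
    obtain ⟨q, rfl⟩ := H f X ι hX a ha
    have h1 : q • hyp S κ ^ (i + 1) = 0 := by
      rw [← down_pow hs i]
      change q • C.push s _ = 0
      rw [← map_smul]
      exact h0
    have h2 : hyp S κ ^ (i + 1) ≠ 0 := by
      intro h
      apply hS.hypersurface d (n + 1) F Y κ hY
      exact pow_eq_zero_of_le (by omega) h
    rcases smul_eq_zero.1 h1 with h | h
    · rw [h, zero_smul]
    · exact absurd h h2
  tfae_have 3 → 1 := by
    intro H f X ι hX a ha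
    obtain ⟨Y, κ, hY, s, q, g, hs, hG, hq⟩ := hcyc d n f X ι hn hX
    obtain ⟨r, hr⟩ := (cover hB hS (by omega) hs hG hq i).2 a ha
    refine ⟨r, ?_⟩
    have h1 : C.Deg i (a - r • hyp S ι ^ i) :=
      Submodule.sub_mem _ ha
        (Submodule.smul_mem _ _ (deg_pow (hdeg.pull_mem ι (hS.deg_hyp _)) i))
    have h2 := H f X ι (cyc d f) Y κ s hX hY hs _ h1 (by
      change C.push s (a - r • _) = 0
      rw [map_sub, map_smul]
      have h3 := down_pow hs i
      have h4 : C.push s (hyp S ι ^ i) = hyp S κ ^ (i + 1) := h3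
      have h5 : C.push s a = r • hyp S κ ^ (i + 1) := hr
      rw [h4, h5, sub_self])
    exact sub_eq_zero.1 h2
  tfae_finish

end Pool.Agent.W525.Ha
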